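import Pool.Agent.Q299.PAE.Main

/-!
Q2 of MP_e39611_pr. For `α ≫ n^{2/3}` (in fact for `α ≫ √n`) the graph `G^α_{n,m}` of the
preferential attachment process and the uniformly random graph with the same number `m ≤ n` of
edges are at total variation distance `o(1)`. In the critical window of the process,
`(2m/n - 1) n^{1/3} → λ`, so the component sizes have the Erdős–Rényi limit at `λ`.
-/

namespace Pool.Agent.Results.MP_e39611_pr.SameLimitAsER

open Finset Filter Topology Q299.PAE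

/-- `m = ⌊m_c (1 + ε)⌋` with `m_c = n α / (2 (α + 1))`. -/
noncomputable def mcrit (n : ℕ) (α ε : ℝ) : ℕ := ⌊(n * α / (2 * (α + 1))) * (1 + ε)⌋₊

lemma mcrit_le {n : ℕ} {α ε : ℝ} (hα : 0 < α) (hε : |ε| ≤ 1) : mcrit n α ε ≤ n := by
  unfold mcrit
  obtain ⟨h1, h2⟩ := abs_le.mp hε
  refine Nat.floor_le_of_le ?_
  have h3 : (n : ℝ) * α / (2 * (α + 1)) ≤ n / 2 := by
    rw [div_le_div_iff₀ (by positivity) (by norm_num)]
    nlinarith [(Nat.cast_nonneg n : (0 : ℝ) ≤ n)]
  have h4 : (0 : ℝ) ≤ n * α / (2 * (α + 1)) := by positivity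
  calc (n : ℝ) * α / (2 * (α + 1)) * (1 + ε) ≤ (n / 2) * 2 :=
        mul_le_mul h3 (by linarith) (by linarith) (by positivity)
    _ = n := by ring

lemma expL_sub_le {n : ℕ} {P Q : Finset (Sym2 (Fin n)) → ℝ} {k : ℕ} {f : (Fin k → ℝ) → ℝ} {C : ℝ}
    (hf : ∀ x, |f x| ≤ C) : |expL P k f - expL Q k f| ≤ 2 * C * tv P Q := by
  unfold expL tv
  rw [← Finset.sum_sub_distrib]
  calc _ ≤ ∑ E, |P E * f (fun j => (L E j : ℝ) / (n : ℝ) ^ (2 / 3 : ℝ))
        - Q E * f (fun j => (L E j : ℝ) / (n : ℝ) ^ (2 / 3 : ℝ))| := abs_sum_le_sum_abs _ _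
    _ ≤ ∑ E, |P E - Q E| * C := by
        refine Finset.sum_le_sum fun E _ => ?_
        rw [← sub_mul, abs_mul]
        exact mul_le_mul_of_nonneg_left (hf _) (abs_nonneg _)
    _ = _ := by rw [← Finset.sum_mul]; ring

/-- **Main theorem.** (i) An explicit bound for the total variation distance of the two graph
laws, for all `n ≥ 6`, `m ≤ n`, `α > 0`. (ii)-(iv) The critical window with `α ≫ n^{2/3}`. -/
theorem result :
    (∀ (n m : ℕ) (α : ℝ), 6 ≤ n → m ≤ n → 0 < α → tv (pa α n m) (er n m) ≤ 13 * √n / α) ∧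
    (∀ (α ε : ℕ → ℝ) (lam : ℝ), (∀ n, 0 < α n) →
      Tendsto (fun n : ℕ => α n / (n : ℝ) ^ (2 / 3 : ℝ)) atTop atTop →
      Tendsto (fun n : ℕ => ε n * (n : ℝ) ^ (1 / 3 : ℝ)) atTop (𝓝 lam) →
      -- the number of edges is in the Erdős–Rényi critical window, with the same `λ`
      Tendsto (fun n : ℕ => (2 * (mcrit n (α n) (ε n) : ℝ) / n - 1) * (n : ℝ) ^ (1 / 3 : ℝ))
        atTop (𝓝 lam) ∧
      -- the two graphs can be coupled to be equal with high probability
      Tendsto (fun n : ℕ => tv (pa (α n) n (mcrit n (α n) (ε n))) (er n (mcrit n (α n) (ε n))))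
        atTop (𝓝 0) ∧
      -- the rescaled component sizes have the same limit
      ∀ (k : ℕ) (f : (Fin k → ℝ) → ℝ), (∃ C, ∀ x, |f x| ≤ C) →
        Tendsto (fun n : ℕ => expL (pa (α n) n (mcrit n (α n) (ε n))) k f
          - expL (er n (mcrit n (α n) (ε n))) k f) atTop (𝓝 0)) := by
  refine ⟨fun n m α hn hm hα => tv_le hn hα hm, ?_⟩
  intro α ε lam hα hαn hεn
  -- powers of `n`
  have hn13 : Tendsto (fun n : ℕ => (n : ℝ) ^ (1 / 3 : ℝ)) atTop atTop :=
    (tendsto_rpow_atTop (by norm_num)).comp tendsto_natCast_atTop_atTop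
  have hε0 : Tendsto ε atTop (𝓝 0) := by
    have h1 := hεn.mul hn13.inv_tendsto_atTop
    rw [mul_zero] at h1
    refine h1.congr' ?_
    filter_upwards [eventually_gt_atTop 0] with n hn
    have : (0 : ℝ) < (n : ℝ) ^ (1 / 3 : ℝ) := Real.rpow_pos_of_pos (by exact_mod_cast hn) _
    simp only [Pi.inv_apply]
    field_simp
  have hεsmall : ∀ᶠ n in atTop, |ε n| ≤ 1 := by
    have h1 := hε0.abs
    rw [abs_zero] at h1
    exact (h1.eventually (gt_mem_nhds one_pos)).mono fun n hn => hn.le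
  -- `n^{2/3}/α → 0`
  have hinv : Tendsto (fun n : ℕ => (n : ℝ) ^ (2 / 3 : ℝ) / α n) atTop (𝓝 0) := by
    refine hαn.inv_tendsto_atTop.congr fun n => ?_
    simp only [Pi.inv_apply, inv_div]
  have htv : Tendsto (fun n : ℕ => tv (pa (α n) n (mcrit n (α n) (ε n)))
      (er n (mcrit n (α n) (ε n)))) atTop (𝓝 0) := by
    have h1 : Tendsto (fun n : ℕ => 13 * ((n : ℝ) ^ (2 / 3 : ℝ) / α n)) atTop (𝓝 0) := by
      simpa using hinv.const_mul 13
    refine squeeze_zero' (Eventually.of_forall fun n => ?_) ?_ h1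
    · unfold tv
      exact mul_nonneg (by norm_num) (Finset.sum_nonneg fun _ _ => abs_nonneg _)
    · filter_upwards [hεsmall, eventually_ge_atTop 6] with n hε hn
      refine (tv_le hn (hα n) (mcrit_le (hα n) hε)).trans ?_
      have h2 : √(n : ℝ) ≤ (n : ℝ) ^ (2 / 3 : ℝ) := by
        rw [Real.sqrt_eq_rpow]
        refine Real.rpow_le_rpow_of_exponent_le ?_ (by norm_num)
        exact_mod_cast (show 1 ≤ n by omega)
      rw [mul_div_assoc]
      exact mul_le_mul_of_nonneg_left (div_le_div_of_nonneg_right h2 (hα n).le) (by norm_num)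
  refine ⟨?_, htv, ?_⟩
  · -- the window
    have hb : Tendsto (fun n : ℕ => ε n * (n : ℝ) ^ (1 / 3 : ℝ)
        - (1 + ε n) * ((n : ℝ) ^ (1 / 3 : ℝ) / (α n + 1))) atTop (𝓝 lam) := by
      have h1 : Tendsto (fun n : ℕ => (n : ℝ) ^ (1 / 3 : ℝ) / (α n + 1)) atTop (𝓝 0) := by
        refine squeeze_zero' (Eventually.of_forall fun n => ?_) ?_ hinv
        · have := hα n; positivity
        · filter_upwards [eventually_ge_atTop 1] with n hn
          have h2 : (n : ℝ) ^ (1 / 3 : ℝ) ≤ (n : ℝ) ^ (2 / 3 : ℝ) :=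
            Real.rpow_le_rpow_of_exponent_le (by exact_mod_cast hn) (by norm_num)
          have := hα n
          exact div_le_div₀ (by positivity) h2 this (by linarith)
      have h2 := hεn.sub ((hε0.const_add 1).mul h1)
      simpa using h2
    have hlow : Tendsto (fun n : ℕ => 2 / (n : ℝ) * (n : ℝ) ^ (1 / 3 : ℝ)) atTop (𝓝 0) := by
      have h1 : Tendsto (fun n : ℕ => (n : ℝ) ^ (-(2 / 3) : ℝ)) atTop (𝓝 0) :=
        (tendsto_rpow_neg_atTop (by norm_num)).comp tendsto_natCast_atTop_atTop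
      have h2 := h1.const_mul 2
      rw [mul_zero] at h2
      refine h2.congr' ?_
      filter_upwards [eventually_gt_atTop 0] with n hn
      have hn' : (0 : ℝ) < n := by exact_mod_cast hn
      rw [show (-(2 / 3) : ℝ) = 1 / 3 - 1 by norm_num, Real.rpow_sub hn', Real.rpow_one]
      ring
    have hb' := hb.sub hlow
    rw [sub_zero] at hb'
    refine tendsto_of_tendsto_of_tendsto_of_le_of_le' hb' hb ?_ ?_
    · filter_upwards [eventually_gt_atTop 0] with n hn
      have hn' : (0 : ℝ) < n := by exact_mod_cast hn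
      have ha := hα n
      have h1 : (n * α n / (2 * (α n + 1))) * (1 + ε n) - 1 ≤ (mcrit n (α n) (ε n) : ℝ) := by
        unfold mcrit
        linarith [Nat.lt_floor_add_one ((n * α n / (2 * (α n + 1))) * (1 + ε n))]
      have h2 : ε n * (n : ℝ) ^ (1 / 3 : ℝ) - (1 + ε n) * ((n : ℝ) ^ (1 / 3 : ℝ) / (α n + 1))
          - 2 / (n : ℝ) * (n : ℝ) ^ (1 / 3 : ℝ)
          = (2 * ((n * α n / (2 * (α n + 1))) * (1 + ε n) - 1) / n - 1)
            * (n : ℝ) ^ (1 / 3 : ℝ) := by
        field_simp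
        ring
      rw [h2]
      refine mul_le_mul_of_nonneg_right ?_ (by positivity)
      have := div_le_div_of_nonneg_right (mul_le_mul_of_nonneg_left h1 (by norm_num : (0:ℝ) ≤ 2))
        hn'.le
      linarith
    · filter_upwards [eventually_gt_atTop 0, hεsmall] with n hn hε
      have hn' : (0 : ℝ) < n := by exact_mod_cast hn
      have ha := hα n
      have h1 : (mcrit n (α n) (ε n) : ℝ) ≤ (n * α n / (2 * (α n + 1))) * (1 + ε n) := by
        unfold mcrit
        refine Nat.floor_le (mul_nonneg (by positivity) ?_)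
        linarith [(abs_le.mp hε).1]
      have h2 : ε n * (n : ℝ) ^ (1 / 3 : ℝ) - (1 + ε n) * ((n : ℝ) ^ (1 / 3 : ℝ) / (α n + 1))
          = (2 * ((n * α n / (2 * (α n + 1))) * (1 + ε n)) / n - 1)
            * (n : ℝ) ^ (1 / 3 : ℝ) := by
        field_simp
        ring
      rw [h2]
      refine mul_le_mul_of_nonneg_right ?_ (by positivity)
      have := div_le_div_of_nonneg_right (mul_le_mul_of_nonneg_left h1 (by norm_num : (0:ℝ) ≤ 2))
        hn'.le
      linarith
  · rintro k f ⟨C, hC⟩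
    have h1 : Tendsto (fun n : ℕ => 2 * C * tv (pa (α n) n (mcrit n (α n) (ε n)))
      (er n (mcrit n (α n) (ε n)))) atTop (𝓝 0) := by
      simpa using htv.const_mul (2 * C)
    exact squeeze_zero_norm (fun n => by rw [Real.norm_eq_abs]; exact expL_sub_le hC) h1

end Pool.Agent.Results.MP_e39611_pr.SameLimitAsER
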